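import Pool.Agent.W525.CB.Stm2

/-!
# Project CB (MP_99f32e_ag): normality of `X` and `Z`
-/

set_option autoImplicit false

open AlgebraicGeometry CategoryTheory Order

namespace Pool.Agent.W486.CBF

open Pool.Agent.H187R3 Pool.Agent.W525.CB

lemma exists_perm {N : ℕ} (j l : Fin (N + 2)) (h : j ≠ l) :
    ∃ σ : Equiv.Perm (Fin (N + 2)), σ 0 = j ∧ σ 1 = l := by
  refine ⟨Equiv.swap ((Equiv.swap 0 j) 1) l * Equiv.swap 0 j, ?_, ?_⟩
  · rw [Equiv.Perm.mul_apply, Equiv.swap_apply_left]
    refine Equiv.swap_apply_of_ne_of_ne ?_ h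
    intro h1
    have h2 : (Equiv.swap (0 : Fin (N + 2)) j) 0 = (Equiv.swap 0 j) 1 := by
      rw [Equiv.swap_apply_left]; exact h1
    have h3 := (Equiv.swap (0 : Fin (N + 2)) j).injective h2
    exact absurd h3 (by simp)
  · rw [Equiv.Perm.mul_apply, Equiv.swap_apply_left]

lemma range_le {X : Scheme.{0}} [IsIntegral X] {E : Type} [Field E] (κ : X.functionField →+* E)
    (e : E) (he : e ∈ κ.range) : e ∈ locIn κ (genericPoint X) := by
  obtain ⟨φ, rfl⟩ := he
  unfold locIn
  refine ⟨φ, ?_⟩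
  rw [RingHom.comp_apply]
  congr 1
  show (X.presheaf.stalkSpecializes _).hom φ = φ
  rw [TopCat.Presheaf.stalkSpecializes_refl]
  rfl

lemma intClosed_mono {E : Type} [Field E] {A K K' : Set E} (h : IntClosedIn A K) (hK : K' ⊆ K) :
    IntClosedIn A K' := fun e he hq => h e (hK he) hq

theorem main : S_ANOR := by
  intro parts n k E _ _ _ _ _ _ x y hn hE
  have hch := parts.ch n k E x y hE.dat
  have hff := parts.ff n k E x y hn hE
  have hnch := parts.nch n k E x y hn hE
  have hcov := parts.cov n k E x y hn hE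
  refine ⟨fun M => ?_, fun M => ?_⟩
  · refine parts.nors M.X E M.κ {a : IX n // a.1.1 = a.1.2.1} (fun a => M.U a.1)
      (fun a => M.affine _) (fun a => M.gen _) (fun P => ?_) (fun a => ?_)
    · obtain ⟨σ, a, ha, hP, -⟩ := hcov.1 M P
      exact ⟨⟨a, by rw [ha]⟩, hP⟩
    · obtain ⟨a, ha⟩ := a
      obtain ⟨σ, h0, h1⟩ := exists_perm a.1.2.1 a.1.2.2 a.2
      have haσ : a.1 = (σ 0, σ 0, σ 1) := by
        rw [h0, h1]
        ext1
        · exact ha
        · rfl
      have hsec : secIn M.κ (M.U a) = (AX k x y σ : Set E) := by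
        rw [M.sec a, hch.1 σ a haσ]
      have hsub : (AX k x y σ : Set E) ⊆ (FX k x y : Set E) := by
        rw [← hff.1 σ]
        exact IntermediateField.algebra_adjoin_le_adjoin k _
      show IntClosedIn (secIn M.κ (M.U a)) (M.κ.range : Set E)
      rw [hsec]
      refine intClosed_mono (hnch σ).1 ?_
      intro e he
      obtain ⟨b, s, hb, hs, -, -, rfl⟩ :=
        (parts.loc M.X E M.κ (M.U a) (M.affine a) (genericPoint M.X) (M.gen a)).2 e
          (range_le M.κ e he)
      rw [hsec] at hb hs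
      exact div_mem (hsub hb) (hsub hs)
  · refine parts.nors M.X E M.κ (Fin (n + 3)) M.U
      (fun a => M.affine _) (fun a => M.gen _) M.cover (fun a => ?_)
    have h0 : (Equiv.swap (0 : Fin (n + 3)) a) 0 = a := Equiv.swap_apply_left _ _
    set σ := Equiv.swap (0 : Fin (n + 3)) a with hσ
    have hsec : secIn M.κ (M.U a) = (AZ k x σ : Set E) := by
      have h2 := hch.2.1 σ
      rw [h0] at h2
      rw [M.sec a, h2]
    have hsub : (AZ k x σ : Set E) ⊆ (FZ k x : Set E) := by
      rw [← hff.2 σ]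
      exact IntermediateField.algebra_adjoin_le_adjoin k _
    rw [hsec]
    refine intClosed_mono (hnch σ).2 ?_
    intro e he
    obtain ⟨b, s, hb, hs, -, -, rfl⟩ :=
      (parts.loc M.X E M.κ (M.U a) (M.affine a) (genericPoint M.X) (M.gen a)).2 e
        (range_le M.κ e he)
    rw [hsec] at hb hs
    exact div_mem (hsub hb) (hsub hs)

end Pool.Agent.W486.CBF
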